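import Mathlib

/-!
# Normalisation of a log-concave weight

A positive function `w` on `[0,∞)` with `log w` concave and `log w(x)/x → -∞` is, on `(0,∞)`, a
positive constant times a continuous submultiplicative weight with the same two properties.
-/

set_option autoImplicit false
open MeasureTheory Filter Set Topology

namespace MP_c588fa_ins

/-- the limit at `0+` of a concave function on `[0,∞)` exists -/
private lemma exists_limit_weight {ψ : ℝ → ℝ} (hψ : ConcaveOn ℝ (Ici 0) ψ) :
    ∃ l : ℝ, Tendsto ψ (𝓝[>] 0) (𝓝 l) := by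
  have hconv : ConvexOn ℝ (Ici 0) (fun x => -ψ x) := hψ.neg
  set T : ℝ → ℝ := fun x => (-ψ x - -ψ 1) / (x - 1) with hT
  have hmono : MonotoneOn T (Ioo 0 1) := by
    intro x hx y hy hxy
    exact hconv.secant_mono (a := 1) (x := x) (y := y) (mem_Ici.mpr zero_le_one)
      (mem_Ici.mpr hx.1.le) (mem_Ici.mpr hy.1.le) hx.2.ne hy.2.ne hxy
  have hbdd : BddBelow (T '' Ioo 0 1) := by
    refine ⟨T 0, ?_⟩
    rintro _ ⟨x, hx, rfl⟩
    exact hconv.secant_mono (a := 1) (x := 0) (y := x) (mem_Ici.mpr zero_le_one)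
      (mem_Ici.mpr le_rfl) (mem_Ici.mpr hx.1.le) zero_ne_one hx.2.ne hx.1.le
  have h1 : Tendsto T (𝓝[>] 0) (𝓝 (sInf (T '' Ioo 0 1))) :=
    hmono.tendsto_nhdsWithin_Ioo_right ⟨1 / 2, by norm_num, by norm_num⟩ hbdd
  have h2 : Tendsto (fun x : ℝ => ψ 1 - (x - 1) * T x) (𝓝[>] 0)
      (𝓝 (ψ 1 - (0 - 1) * sInf (T '' Ioo 0 1))) := by
    have h3 : Tendsto (fun x : ℝ => x - 1) (𝓝[>] 0) (𝓝 (0 - 1)) :=
      (tendsto_id.sub_const 1).mono_left nhdsWithin_le_nhds
    exact (tendsto_const_nhds).sub (h3.mul h1)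
  refine ⟨_, h2.congr' ?_⟩
  have h4 : ∀ᶠ x : ℝ in 𝓝[>] 0, x ∈ Ioo (0 : ℝ) 1 := Ioo_mem_nhdsGT zero_lt_one
  filter_upwards [h4] with x hx
  have h5 : x - 1 ≠ 0 := (sub_neg.mpr hx.2).ne
  simp only [hT]
  field_simp
  ring

/-- normalisation of a weight -/
theorem normalise {w : ℝ → ℝ} (hw : ∀ x, 0 ≤ x → 0 < w x)
    (hconc : ConcaveOn ℝ (Ici 0) (fun x => Real.log (w x)))
    (hlim : Tendsto (fun x => Real.log (w x) / x) atTop atBot) :
    ∃ (L : ℝ) (v : ℝ → ℝ), 0 < L ∧ Continuous v ∧ (∀ x, 0 < v x) ∧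
      (∀ s t : ℝ, 0 ≤ s → 0 ≤ t → v (s + t) ≤ v s * v t) ∧
      ConcaveOn ℝ (Ici 0) (fun x => Real.log (v x)) ∧
      Tendsto (fun x => Real.log (v x) / x) atTop atBot ∧
      ∀ x, 0 < x → w x = L * v x := by
  obtain ⟨l, hl⟩ := exists_limit_weight hconc
  set ψ : ℝ → ℝ := fun x => Real.log (w x) with hψ
  set χ : ℝ → ℝ := fun x => if x ≤ 0 then 0 else ψ x - l with hχ
  have hχ0 : ∀ x, x ≤ 0 → χ x = 0 := fun x hx => if_pos hx
  have hχ1 : ∀ x, 0 < x → χ x = ψ x - l := fun x hx => if_neg (not_le.mpr hx)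
  have hlχ : Tendsto χ (𝓝[>] 0) (𝓝 0) := by
    have h1 : Tendsto (fun x => ψ x - l) (𝓝[>] 0) (𝓝 (l - l)) := hl.sub_const l
    rw [sub_self] at h1
    refine h1.congr' ?_
    filter_upwards [self_mem_nhdsWithin] with x hx
    exact (hχ1 x hx).symm
  have hψc : ContinuousOn ψ (Ioi 0) := by
    have h1 := hconc.continuousOn_interior
    rwa [interior_Ici] at h1
  have hχc : Continuous χ := by
    rw [continuous_iff_continuousAt]
    intro x
    rcases lt_trichotomy x 0 with hx | hx | hx
    · have h1 : χ =ᶠ[𝓝 x] fun _ => 0 := by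
        filter_upwards [Iio_mem_nhds hx] with y hy
        exact hχ0 y (le_of_lt hy)
      exact continuousAt_const.congr h1.symm
    · subst hx
      rw [continuousAt_iff_continuous_left'_right']
      constructor
      · have h1 : Tendsto χ (𝓝[<] 0) (𝓝 0) := by
          refine tendsto_const_nhds.congr' ?_
          filter_upwards [self_mem_nhdsWithin] with y hy
          exact (hχ0 y (le_of_lt hy)).symm
        show Tendsto χ (𝓝[<] 0) (𝓝 (χ 0))
        rw [hχ0 0 le_rfl]
        exact h1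
      · show Tendsto χ (𝓝[>] 0) (𝓝 (χ 0))
        rw [hχ0 0 le_rfl]
        exact hlχ
    · have h1 : (fun y => ψ y - l) =ᶠ[𝓝 x] χ := by
        filter_upwards [Ioi_mem_nhds hx] with y hy
        exact (hχ1 y hy).symm
      exact ((hψc.continuousAt (Ioi_mem_nhds hx)).sub continuousAt_const).congr h1
  have hχconc : ConcaveOn ℝ (Ici 0) χ := by
    have hpos : ∀ x y : ℝ, 0 < x → 0 < y → ∀ s t : ℝ, 0 ≤ s → 0 ≤ t → s + t = 1 →
        s * χ x + t * χ y ≤ χ (s * x + t * y) := by
      intro x y hx hy s t hs ht hst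
      have h1 := hconc.2 (mem_Ici.mpr hx.le) (mem_Ici.mpr hy.le) hs ht hst
      simp only [smul_eq_mul] at h1
      have h2 : 0 < s * x + t * y := by
        rcases hs.eq_or_lt with h | h
        · have h3 : t = 1 := by linarith
          rw [← h, h3]; linarith
        · have := mul_pos h hx
          have := mul_nonneg ht hy.le
          linarith
      rw [hχ1 x hx, hχ1 y hy, hχ1 _ h2]
      have h3 : s * (ψ x - l) + t * (ψ y - l) = s * ψ x + t * ψ y - (s + t) * l := by ring
      rw [h3, hst, one_mul]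
      exact sub_le_sub_right h1 l
    refine ⟨convex_Ici 0, ?_⟩
    intro x hx y hy s t hs ht hst
    simp only [smul_eq_mul]
    have h1 : Tendsto (fun e : ℝ => s * χ (x + e) + t * χ (y + e)) (𝓝[>] 0)
        (𝓝 (s * χ (x + 0) + t * χ (y + 0))) := by
      refine Tendsto.mono_left ?_ nhdsWithin_le_nhds
      exact Continuous.tendsto (f := fun e : ℝ => s * χ (x + e) + t * χ (y + e)) (by fun_prop) 0
    have h2 : Tendsto (fun e : ℝ => χ (s * (x + e) + t * (y + e))) (𝓝[>] 0)
        (𝓝 (χ (s * (x + 0) + t * (y + 0)))) := by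
      refine Tendsto.mono_left ?_ nhdsWithin_le_nhds
      exact Continuous.tendsto (f := fun e : ℝ => χ (s * (x + e) + t * (y + e))) (by fun_prop) 0
    simp only [add_zero] at h1 h2
    refine le_of_tendsto_of_tendsto h1 h2 ?_
    filter_upwards [self_mem_nhdsWithin] with e he
    have he' : (0 : ℝ) < e := he
    exact hpos (x + e) (y + e) (by linarith [mem_Ici.mp hx]) (by linarith [mem_Ici.mp hy])
      s t hs ht hst
  refine ⟨Real.exp l, fun x => Real.exp (χ x), Real.exp_pos l, Real.continuous_exp.comp hχc,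
    fun x => Real.exp_pos _, ?_, ?_, ?_, ?_⟩
  · intro s t hs ht
    rw [← Real.exp_add]
    refine Real.exp_le_exp.mpr ?_
    rcases (add_nonneg hs ht).eq_or_lt with h | h
    · have hs0 : s = 0 := by linarith
      have ht0 : t = 0 := by linarith
      rw [hs0, ht0, add_zero, hχ0 0 le_rfl, add_zero]
    · have h1 := hχconc.2 (mem_Ici.mpr (le_refl (0:ℝ))) (mem_Ici.mpr h.le)
        (show 0 ≤ t / (s + t) by positivity) (show 0 ≤ s / (s + t) by positivity)
        (by field_simp; ring)
      have h2 := hχconc.2 (mem_Ici.mpr (le_refl (0:ℝ))) (mem_Ici.mpr h.le)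
        (show 0 ≤ s / (s + t) by positivity) (show 0 ≤ t / (s + t) by positivity)
        (by field_simp)
      simp only [smul_eq_mul, hχ0 0 le_rfl, mul_zero, zero_add] at h1 h2
      have e1 : s / (s + t) * (s + t) = s := by field_simp
      have e2 : t / (s + t) * (s + t) = t := by field_simp
      rw [e1] at h1
      rw [e2] at h2
      have e3 : s / (s + t) * χ (s + t) + t / (s + t) * χ (s + t) = χ (s + t) := by
        field_simp
      linarith
  · simpa only [Real.log_exp] using hχconc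
  · simp only [Real.log_exp]
    have h1 : Tendsto (fun x : ℝ => ψ x / x + -l / x) atTop atBot := by
      refine Tendsto.atBot_add hlim (C := 0) ?_
      exact tendsto_const_nhds.div_atTop tendsto_id
    refine h1.congr' ?_
    filter_upwards [eventually_gt_atTop (0 : ℝ)] with x hx
    rw [hχ1 x hx, sub_div, neg_div, sub_eq_add_neg]
  · intro x hx
    show w x = Real.exp l * Real.exp (χ x)
    rw [hχ1 x hx, ← Real.exp_add, add_sub_cancel, Real.exp_log (hw x hx.le)]

end MP_c588fa_ins
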