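import Pool.Agent.Lib_MP_c588fa_an.Standard
import Pool.Agent.Lib_MP_c588fa_ins.Weight

/-!
# Closed subspaces of `L¹(w, ℝ⁺)`: the analytic core

`standard_core`: a closed subspace all of whose annihilating functionals also annihilate almost
every right translate is standard.  `standard_translates`: the case of closed subspaces which are
invariant under right translations.
-/

set_option autoImplicit false
open MeasureTheory Filter Set Complex

namespace MP_c588fa_ins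

open _root_.MP_c588fa_an

/-- A closed subspace `I` of `L¹(ν)`, `ν = w dx`, is standard as soon as every functional `k`
annihilating `I` satisfies `∫ f(x) k(x+a) w(x+a) dx = 0` for `f ∈ I` and almost every `a ≥ 0`. -/
theorem standard_core {w : ℝ → ℝ} (hwc : Continuous w) (hwpos : ∀ x, 0 < w x)
    (hconc : ConcaveOn ℝ (Ici 0) (fun x => Real.log (w x)))
    (hlim : Tendsto (fun x => Real.log (w x) / x) atTop atBot)
    {ν : Measure ℝ} (hν : ν = (volume.restrict (Ici (0 : ℝ))).withDensity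
      (fun x => ENNReal.ofReal (w x)))
    {I : Submodule ℂ (Lp ℂ 1 ν)} (hcl : IsClosed (I : Set (Lp ℂ 1 ν)))
    (hI : ∀ (φ : Lp ℂ 1 ν →L[ℂ] ℂ), (∀ f ∈ I, φ f = 0) → ∀ (k : ℝ → ℂ), Measurable k →
      (∀ x, ‖k x‖ ≤ ‖φ‖) → (∀ u : Lp ℂ 1 ν, φ u = ∫ x, (u : ℝ → ℂ) x * k x ∂ν) →
      ∀ f ∈ I, ∀ᵐ a : ℝ, 0 ≤ a →
        ∫ x in Ioi (0 : ℝ), (f : ℝ → ℂ) x * (k (x + a) * (w (x + a) : ℂ)) = 0)
    (hne : I ≠ ⊥) :
    ∃ a : ℝ, 0 ≤ a ∧ ∀ h : Lp ℂ 1 ν, h ∈ I ↔ ∀ᵐ x ∂ν, x < a → (h : ℝ → ℂ) x = 0 := by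
  have hfin : IsFiniteMeasure ν := by
    rw [hν]; exact (finite_nu hwc hwpos hlim).2
  -- nu-almost everywhere
  have hnn : ∀ᵐ x ∂ν, 0 ≤ x := ae_nu_of hν (ae_restrict_mem measurableSet_Ici)
  have hiff : ∀ P : ℝ → Prop, (∀ᵐ x ∂ν, P x) ↔ ∀ᵐ x : ℝ, x ∈ Ici (0:ℝ) → P x := by
    intro P
    rw [← ae_restrict_iff' measurableSet_Ici]
    exact ⟨fun h => ae_vol_of hwc hwpos hν h, fun h => ae_nu_of hν h⟩
  -- an element which is nonzero
  obtain ⟨f0, hf0I, hf0⟩ := (Submodule.ne_bot_iff I).mp hne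
  -- the general sup lemma
  have hsup : ∀ F : Set (Lp ℂ 1 ν), (∃ f ∈ F, f ≠ 0) → ∃ a : ℝ, 0 ≤ a ∧
      (∀ f ∈ F, ∀ᵐ x ∂ν, x < a → (f : ℝ → ℂ) x = 0) ∧
      ∀ c : ℝ, a < c → ¬ ∀ f ∈ F, ∀ᵐ x ∂ν, x < c → (f : ℝ → ℂ) x = 0 := by
    rintro F ⟨f1, hf1F, hf1⟩
    let A : Set ℝ := {a | ∀ f ∈ F, ∀ᵐ x ∂ν, x < a → (f : ℝ → ℂ) x = 0}
    have h0A : (0:ℝ) ∈ A := by
      intro f _
      filter_upwards [hnn] with x hx hx0
      exact absurd hx0 (not_lt.mpr hx)
    have hbdd : BddAbove A := by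
      by_contra hnb
      refine hf1 ?_
      rw [Lp.eq_zero_iff_ae_eq_zero]
      have h1 : ∀ n : ℕ, ∀ᵐ x ∂ν, x < (n:ℝ) → (f1 : ℝ → ℂ) x = 0 := by
        intro n
        obtain ⟨a, haA, hna⟩ := not_bddAbove_iff.mp hnb n
        filter_upwards [haA f1 hf1F] with x hx hxn
        exact hx (hxn.trans hna)
      filter_upwards [ae_all_iff.mpr h1] with x hx
      obtain ⟨n, hn⟩ := exists_nat_gt x
      exact hx n hn
    refine ⟨sSup A, le_csSup hbdd h0A, ?_, ?_⟩
    · intro f hf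
      have h1 : ∀ n : ℕ, ∀ᵐ x ∂ν, x < sSup A - 1 / ((n:ℝ) + 1) → (f : ℝ → ℂ) x = 0 := by
        intro n
        obtain ⟨a, haA, hna⟩ := exists_lt_of_lt_csSup ⟨0, h0A⟩
          (show sSup A - 1 / ((n:ℝ) + 1) < sSup A from sub_lt_self _ (by positivity))
        filter_upwards [haA f hf] with x hx hxn
        exact hx (hxn.trans hna)
      filter_upwards [ae_all_iff.mpr h1] with x hx hxa
      obtain ⟨n, hn⟩ := exists_nat_one_div_lt (sub_pos.mpr hxa)
      exact hx n (by linarith)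
    · intro c hc hall
      exact absurd (le_csSup hbdd (show c ∈ A from hall)) (not_le.mpr hc)
  obtain ⟨α, hα0, hα1, hα2⟩ := hsup (I : Set (Lp ℂ 1 ν)) ⟨f0, hf0I, hf0⟩
  refine ⟨α, hα0, fun h => ⟨fun hh => hα1 h hh, ?_⟩⟩
  intro hh
  by_contra hnot
  -- Hahn Banach
  obtain ⟨φ, hφI, hφh⟩ : ∃ φ : Lp ℂ 1 ν →L[ℂ] ℂ, (∀ f ∈ I, φ f = 0) ∧ φ h ≠ 0 := by
    have hconvex : Convex ℝ (I : Set (Lp ℂ 1 ν)) := (I.restrictScalars ℝ).convex
    obtain ⟨φ, u, h1, h2⟩ := RCLike.geometric_hahn_banach_closed_point (𝕜 := ℂ) hconvex hcl hnot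
    refine ⟨φ, ?_, ?_⟩
    · intro f hf
      by_contra hne0
      have h4 := h1 ((((|u| + 1 : ℝ) : ℂ) / φ f) • f) (I.smul_mem _ hf)
      rw [map_smul, smul_eq_mul, div_mul_cancel₀ _ hne0] at h4
      have h5 : |u| + 1 < u := by simpa using h4
      linarith [le_abs_self u]
    · intro h0
      have h3 := h1 0 I.zero_mem
      rw [map_zero] at h3
      rw [h0] at h2
      simp only [map_zero] at h2 h3
      linarith
  obtain ⟨k, hk, hkC, hrep⟩ := dual_L1 φ
  have hann : ∀ f ∈ I, ∀ᵐ a : ℝ, 0 ≤ a →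
      ∫ x in Ioi (0 : ℝ), (f : ℝ → ℂ) x * (k (x + a) * (w (x + a) : ℂ)) = 0 :=
    hI φ hφI k hk hkC hrep
  -- k vanishes beyond c for all c > α
  have hkc : ∀ c : ℝ, α < c → ∀ᵐ x : ℝ, c < x → k x = 0 := by
    intro c hc
    have h1 := hα2 c hc
    simp only [not_forall] at h1
    obtain ⟨f, hfI, hfc⟩ := h1
    have hfne : f ≠ 0 := by
      rintro rfl
      apply hfc
      filter_upwards [Lp.coeFn_zero ℂ 1 ν] with x hx _
      exact hx
    obtain ⟨b, hb0, hb1, hb2⟩ := hsup {f} ⟨f, rfl, hfne⟩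
    have hb1' : ∀ᵐ x ∂ν, x < b → (f : ℝ → ℂ) x = 0 := hb1 f rfl
    have hbc : b ≤ c := by
      by_contra hcb
      have hcb := not_le.mp hcb
      apply hfc
      filter_upwards [hb1'] with x hx hxc
      exact hx (hxc.trans hcb)
    have hfm : Measurable (f : ℝ → ℂ) := (Lp.stronglyMeasurable f).measurable
    have hfi : Integrable (fun x => (w x : ℂ) * f x) (volume.restrict (Ici (0 : ℝ))) :=
      (integrable_nu_iff hwc hwpos hν _).mp (L1.integrable_coeFn f)
    have h2 := vanish_beyond hwc hwpos hconc hlim hfm hk hkC hfi hb0 ?_ ?_ (hann f hfI)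
    · filter_upwards [h2] with x hx hcx
      exact hx (lt_of_le_of_lt hbc hcx)
    · have h3 := (hiff _).mp hb1'
      filter_upwards [h3] with x hx hxb
      exact hx hxb.1.le hxb.2
    · intro ε hε hall
      refine hb2 (b + ε) (by linarith) ?_
      intro f' hf'
      rw [mem_singleton_iff.mp hf', hiff]
      have hb' : ∀ᵐ x : ℝ, x ≠ b := by
        simp [ae_iff]
      filter_upwards [(hiff _).mp hb1', hall, hb'] with x hx1 hx2 hx3 hx0 hxb
      rcases lt_or_gt_of_ne hx3 with h5 | h5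
      · exact hx1 hx0 h5
      · exact hx2 ⟨h5, hxb.le⟩
  have hkα : ∀ᵐ x : ℝ, α < x → k x = 0 := by
    have h1 : ∀ n : ℕ, ∀ᵐ x : ℝ, α + 1 / ((n:ℝ) + 1) < x → k x = 0 := by
      intro n
      exact hkc _ (by have : (0:ℝ) < 1 / ((n:ℝ) + 1) := by positivity
                      linarith)
    filter_upwards [ae_all_iff.mpr h1] with x hx hxa
    obtain ⟨n, hn⟩ := exists_nat_one_div_lt (sub_pos.mpr hxa)
    exact hx n (by linarith)
  apply hφh
  rw [hrep]
  have h5 : ∀ᵐ x ∂ν, (h : ℝ → ℂ) x * k x = 0 := by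
    have h6 : ∀ᵐ x ∂ν, α < x → k x = 0 := by
      rw [hiff]
      filter_upwards [hkα] with x hx _
      exact hx
    have h7 : ∀ᵐ x ∂ν, x ≠ α := by
      rw [hiff]
      have hb' : ∀ᵐ x : ℝ, x ≠ α := by
        simp [ae_iff]
      filter_upwards [hb'] with x hx _
      exact hx
    filter_upwards [hh, h6, h7] with x hx1 hx2 hx3
    rcases lt_or_gt_of_ne hx3 with h8 | h8
    · rw [hx1 h8, zero_mul]
    · rw [hx2 h8, mul_zero]
  rw [integral_congr_ae h5]
  simp

/-- the right translate of a function, extended by zero -/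
private noncomputable def shiftCore (a : ℝ) (f : ℝ → ℂ) (x : ℝ) : ℂ := if a ≤ x then f (x - a) else 0

/-- A nonzero closed subspace of `L¹(ν)`, `ν = w dx`, which is invariant under all right
translations is standard. -/
theorem standard_translates {w : ℝ → ℝ} (hwc : Continuous w) (hwpos : ∀ x, 0 < w x)
    (hsm : ∀ s t : ℝ, 0 ≤ s → 0 ≤ t → w (s + t) ≤ w s * w t)
    (hconc : ConcaveOn ℝ (Ici 0) (fun x => Real.log (w x)))
    (hlim : Tendsto (fun x => Real.log (w x) / x) atTop atBot)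
    {ν : Measure ℝ} (hν : ν = (volume.restrict (Ici (0 : ℝ))).withDensity
      (fun x => ENNReal.ofReal (w x)))
    {I : Submodule ℂ (Lp ℂ 1 ν)} (hcl : IsClosed (I : Set (Lp ℂ 1 ν)))
    (hI : ∀ f ∈ I, ∀ a : ℝ, 0 ≤ a → ∀ h : Lp ℂ 1 ν, (h : ℝ → ℂ) =ᵐ[ν]
      (fun x => if a ≤ x then (f : ℝ → ℂ) (x - a) else 0) → h ∈ I)
    (hne : I ≠ ⊥) :
    ∃ a : ℝ, 0 ≤ a ∧ ∀ h : Lp ℂ 1 ν, h ∈ I ↔ ∀ᵐ x ∂ν, x < a → (h : ℝ → ℂ) x = 0 := by
  have hfin : IsFiniteMeasure ν := by
    rw [hν]; exact (finite_nu hwc hwpos hlim).2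
  refine standard_core hwc hwpos hconc hlim hν hcl ?_ hne
  intro φ hφ k hk hkC hrep f hf
  refine Eventually.of_forall (fun a ha => ?_)
  have hfm : Measurable (f : ℝ → ℂ) := (Lp.stronglyMeasurable f).measurable
  have hfi : Integrable (fun x => (w x : ℂ) * f x) (volume.restrict (Ici (0 : ℝ))) :=
    (integrable_nu_iff hwc hwpos hν _).mp (L1.integrable_coeFn f)
  -- the translate
  have hpre : (fun x : ℝ => x - a) ⁻¹' (Ici 0) = Ici a := by
    ext x; simp
  have hTm : Measurable (shiftCore a (f : ℝ → ℂ)) := by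
    refine Measurable.ite measurableSet_Ici ?_ measurable_const
    exact hfm.comp (measurable_id.sub_const a)
  have hT1 : IntegrableOn (fun x => (w x : ℂ) * (f : ℝ → ℂ) (x - a)) (Ici a) := by
    have h1 : IntegrableOn (fun x => (w x : ℂ) * (f : ℝ → ℂ) x) (Ici 0) := hfi
    have h2 : IntegrableOn (fun x => (w (x - a) : ℂ) * (f : ℝ → ℂ) (x - a)) (Ici a) := by
      have h3 := ((measurePreserving_sub_right volume a).integrableOn_comp_preimage
        (measurableEmbedding_subRight a)).mpr h1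
      rw [hpre] at h3
      exact h3
    refine Integrable.mono' (h2.norm.const_mul (w a)) ?_ ?_
    · exact ((measurable_ofReal.comp hwc.measurable).mul
        (hfm.comp (measurable_id.sub_const a))).aestronglyMeasurable
    · refine (ae_restrict_mem measurableSet_Ici).mono (fun x hx => ?_)
      have hx' : 0 ≤ x - a := sub_nonneg.mpr hx
      have h4 := hsm (x - a) a hx' ha
      rw [sub_add_cancel] at h4
      rw [norm_mul, norm_mul, Complex.norm_real, Complex.norm_real,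
        Real.norm_of_nonneg (hwpos _).le, Real.norm_of_nonneg (hwpos _).le]
      calc w x * ‖(f : ℝ → ℂ) (x - a)‖ ≤ (w (x - a) * w a) * ‖(f : ℝ → ℂ) (x - a)‖ :=
            mul_le_mul_of_nonneg_right h4 (norm_nonneg _)
        _ = w a * (w (x - a) * ‖(f : ℝ → ℂ) (x - a)‖) := by ring
  have hind : ∀ (F : ℝ → ℂ) (x : ℝ), x ∈ Ici (0:ℝ) →
      F x * shiftCore a (f : ℝ → ℂ) x = (Ici a).indicator (fun x => F x * (f : ℝ → ℂ) (x - a)) x := by
    intro F x _
    by_cases hx : x ∈ Ici a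
    · rw [indicator_of_mem hx]
      show F x * (if a ≤ x then (f : ℝ → ℂ) (x - a) else 0) = _
      rw [if_pos (mem_Ici.mp hx)]
    · rw [indicator_of_notMem hx]
      show F x * (if a ≤ x then (f : ℝ → ℂ) (x - a) else 0) = _
      rw [if_neg (fun h => hx (mem_Ici.mpr h)), mul_zero]
  have hTi : Integrable (shiftCore a (f : ℝ → ℂ)) ν := by
    rw [integrable_nu_iff hwc hwpos hν]
    have h1 : Integrable ((Ici a).indicator (fun x => (w x : ℂ) * (f : ℝ → ℂ) (x - a)))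
        (volume.restrict (Ici (0:ℝ))) :=
      ((integrable_indicator_iff measurableSet_Ici).mpr hT1).mono_measure Measure.restrict_le_self
    refine h1.congr ?_
    refine (ae_restrict_mem measurableSet_Ici).mono (fun x hx => ?_)
    exact (hind (fun x => (w x : ℂ)) x hx).symm
  let h : Lp ℂ 1 ν := hTi.toL1 _
  have hh : (h : ℝ → ℂ) =ᵐ[ν] shiftCore a (f : ℝ → ℂ) := hTi.coeFn_toL1
  have hmem : h ∈ I := hI f hf a ha h hh
  have hzero : φ h = 0 := hφ h hmem
  rw [hrep, integral_nu hwc hwpos hν] at hzero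
  have hhv : ∀ᵐ x ∂(volume.restrict (Ici (0 : ℝ))), (h : ℝ → ℂ) x = shiftCore a (f : ℝ → ℂ) x :=
    ae_vol_of hwc hwpos hν hh
  have h1 : ∫ x in Ici (0:ℝ), (w x : ℂ) * ((h : ℝ → ℂ) x * k x) =
      ∫ x in Ici (0:ℝ), (Ici a).indicator
        (fun x => ((w x : ℂ) * k x) * (f : ℝ → ℂ) (x - a)) x := by
    refine integral_congr_ae ?_
    filter_upwards [hhv, ae_restrict_mem measurableSet_Ici] with x hx hx0
    rw [hx, ← hind (fun x => (w x : ℂ) * k x) x hx0]
    ring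
  rw [h1, setIntegral_indicator measurableSet_Ici,
    inter_eq_self_of_subset_right (Ici_subset_Ici.mpr ha)] at hzero
  have h2 : ∫ x in (fun x : ℝ => x + a) ⁻¹' (Ici a),
      (fun x => ((w x : ℂ) * k x) * (f : ℝ → ℂ) (x - a)) (x + a) =
      ∫ x in Ici a, ((w x : ℂ) * k x) * (f : ℝ → ℂ) (x - a) :=
    (measurePreserving_add_right volume a).setIntegral_preimage_emb
      (measurableEmbedding_addRight a) (fun x => ((w x : ℂ) * k x) * (f : ℝ → ℂ) (x - a)) (Ici a)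
  have h3 : (fun x : ℝ => x + a) ⁻¹' (Ici a) = Ici 0 := by
    ext x; simp
  rw [h3, hzero, integral_Ici_eq_integral_Ioi] at h2
  rw [← h2]
  refine integral_congr_ae (Eventually.of_forall (fun x => ?_))
  show (f : ℝ → ℂ) x * (k (x + a) * (w (x + a) : ℂ)) =
    ((w (x + a) : ℂ) * k (x + a)) * (f : ℝ → ℂ) (x + a - a)
  rw [add_sub_cancel_right]
  ring

end MP_c588fa_ins
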