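import Pool.Agent.Lib_MP_c588fa_ins.Transfer

/-!
# Closed ideals and closed invariant subspaces of `L¹(w, ℝ⁺)`, as sets of functions
-/

set_option autoImplicit false
open MeasureTheory Filter Set Complex

namespace MP_c588fa_ins

open _root_.MP_c588fa_an

/-- closed subspaces are stable under changes on null sets -/
lemma mem_of_ae {w : ℝ → ℝ} {V : Submodule ℂ (ℝ → ℂ)}
    (hcl : ∀ (u : ℕ → ℝ → ℂ) (f : ℝ → ℂ), (∀ n, u n ∈ V) →
      IntegrableOn (fun x => f x * (w x : ℂ)) (Ici 0) →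
      Tendsto (fun n => ∫ x in Ici (0:ℝ), ‖u n x - f x‖ * w x) atTop (nhds 0) → f ∈ V)
    {f g : ℝ → ℂ} (hf : f ∈ V) (hg : IntegrableOn (fun x => g x * (w x : ℂ)) (Ici 0))
    (hfg : ∀ᵐ x : ℝ, 0 ≤ x → f x = g x) : g ∈ V := by
  refine hcl (fun _ => f) g (fun _ => hf) hg ?_
  have h1 : ∫ x in Ici (0:ℝ), ‖f x - g x‖ * w x = 0 := by
    refine integral_eq_zero_of_ae ?_
    have h2 : ∀ᵐ x ∂(volume.restrict (Ici (0:ℝ))), f x = g x :=
      (ae_restrict_iff' measurableSet_Ici).mpr hfg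
    filter_upwards [h2] with x hx
    rw [hx, sub_self, norm_zero, zero_mul, Pi.zero_apply]
  simp only [h1]
  exact tendsto_const_nhds

/-- closed ideals and closed invariant subspaces are standard -/
theorem forward {w : ℝ → ℝ} (hw : ∀ x, 0 ≤ x → 0 < w x)
    (hconc : ConcaveOn ℝ (Ici 0) (fun x => Real.log (w x)))
    (hlim : Tendsto (fun x => Real.log (w x) / x) atTop atBot)
    {V : Submodule ℂ (ℝ → ℂ)}
    (hmem : ∀ f ∈ V, IntegrableOn (fun x => f x * (w x : ℂ)) (Ici 0))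
    (hcl : ∀ (u : ℕ → ℝ → ℂ) (f : ℝ → ℂ), (∀ n, u n ∈ V) →
      IntegrableOn (fun x => f x * (w x : ℂ)) (Ici 0) →
      Tendsto (fun n => ∫ x in Ici (0:ℝ), ‖u n x - f x‖ * w x) atTop (nhds 0) → f ∈ V)
    (hinv : (∀ f ∈ V, ∀ g : ℝ → ℂ, IntegrableOn (fun x => g x * (w x : ℂ)) (Ici 0) →
        (fun x => ∫ t in (0:ℝ)..x, f (x - t) * g t) ∈ V) ∨
      (∀ a : ℝ, 0 ≤ a → ∀ f ∈ V, (fun x => if a ≤ x then f (x - a) else 0) ∈ V)) :
    (∀ f ∈ V, ∀ᵐ x : ℝ, 0 ≤ x → f x = 0) ∨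
    ∃ a : ℝ, 0 ≤ a ∧ ∀ f : ℝ → ℂ, f ∈ V ↔ IntegrableOn (fun x => f x * (w x : ℂ)) (Ici 0) ∧
      ∀ᵐ x : ℝ, 0 ≤ x → x < a → f x = 0 := by
  obtain ⟨L, v, hL, hvc, hvpos, hsm, hvconc, hvlim, hwv⟩ := normalise hw hconc hlim
  obtain ⟨ν, hν⟩ : ∃ ν : Measure ℝ, ν = (volume.restrict (Ici (0 : ℝ))).withDensity
      (fun x => ENNReal.ofReal (v x)) := ⟨_, rfl⟩
  have hint : ∀ f : ℝ → ℂ, IntegrableOn (fun x => f x * (w x : ℂ)) (Ici 0) ↔ Integrable f ν :=
    fun f => inL_iff hL hvc hvpos hwv hν f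
  have hnorm : ∀ F : ℝ → ℂ, ∫ x in Ici (0:ℝ), ‖F x‖ * w x = L * ∫ x, ‖F x‖ ∂ν :=
    fun F => norm_eq_tr hvc hvpos hwv hν F
  have hae : ∀ P : ℝ → Prop, (∀ᵐ x ∂ν, P x) ↔ ∀ᵐ x : ℝ, 0 ≤ x → P x :=
    fun P => ae_nu_iff hvc hvpos hν P
  have hcongr : ∀ f g : ℝ → ℂ, f ∈ V → f =ᵐ[ν] g → g ∈ V := by
    intro f g hf hfg
    refine mem_of_ae hcl hf ?_ ((hae _).mp hfg)
    rw [hint]
    exact ((hint f).mp (hmem f hf)).congr hfg
  let I : Submodule ℂ (Lp ℂ 1 ν) :=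
    { carrier := {h | (h : ℝ → ℂ) ∈ V}
      add_mem' := fun {f g} hf hg => hcongr _ _ (V.add_mem hf hg) (Lp.coeFn_add f g).symm
      zero_mem' := hcongr _ _ V.zero_mem (Lp.coeFn_zero ℂ 1 ν).symm
      smul_mem' := fun c f hf => hcongr _ _ (V.smul_mem c hf) (Lp.coeFn_smul c f).symm }
  have hImem : ∀ h : Lp ℂ 1 ν, h ∈ I ↔ (h : ℝ → ℂ) ∈ V := fun h => Iff.rfl
  have hIcl : IsClosed (I : Set (Lp ℂ 1 ν)) := by
    refine IsSeqClosed.isClosed ?_
    intro u h hu huh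
    refine hcl (fun n => (u n : ℝ → ℂ)) h hu ((hint _).mpr (L1.integrable_coeFn h)) ?_
    have h1 : Tendsto (fun n => L * ‖u n - h‖) atTop (nhds (L * 0)) :=
      (tendsto_iff_norm_sub_tendsto_zero.mp huh).const_mul L
    rw [mul_zero] at h1
    refine h1.congr (fun n => ?_)
    rw [hnorm, L1.norm_eq_integral_norm]
    congr 1
    refine integral_congr_ae ?_
    filter_upwards [Lp.coeFn_sub (u n) h] with x hx
    rw [hx, Pi.sub_apply]
  -- functions and classes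
  have hfun : ∀ (f : ℝ → ℂ) (hf : Integrable f ν), f ∈ V ↔ hf.toL1 f ∈ I := by
    intro f hf
    have h1 : (hf.toL1 f : ℝ → ℂ) =ᵐ[ν] f := hf.coeFn_toL1
    exact ⟨fun h => hcongr _ _ h h1.symm, fun h => hcongr _ _ h h1⟩
  by_cases hbot : I = ⊥
  · left
    intro f hf
    have hfi : Integrable f ν := (hint f).mp (hmem f hf)
    have h1 : hfi.toL1 f ∈ I := (hfun f hfi).mp hf
    rw [hbot, Submodule.mem_bot] at h1
    have h2 : (hfi.toL1 f : ℝ → ℂ) =ᵐ[ν] f := hfi.coeFn_toL1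
    rw [h1] at h2
    rw [← hae]
    filter_upwards [h2, Lp.coeFn_zero ℂ 1 ν] with x hx hx0
    rw [← hx, hx0, Pi.zero_apply]
  · right
    have hst : ∃ a : ℝ, 0 ≤ a ∧ ∀ h : Lp ℂ 1 ν, h ∈ I ↔ ∀ᵐ x ∂ν, x < a → (h : ℝ → ℂ) x = 0 := by
      rcases hinv with hid | htr
      · refine standard_ideal hvc hvpos hsm hvconc hvlim hν hIcl ?_ hbot
        intro f hf g h hh
        have hg : IntegrableOn (fun x => (g : ℝ → ℂ) x * (w x : ℂ)) (Ici 0) :=
          (hint _).mpr (L1.integrable_coeFn g)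
        have h1 := hid f hf g hg
        refine hcongr _ _ h1 ?_
        refine Filter.EventuallyEq.trans ?_ hh.symm
        refine Eventually.of_forall (fun x => ?_)
        show ∫ t in (0:ℝ)..x, (f : ℝ → ℂ) (x - t) * (g : ℝ → ℂ) t =
          ∫ t in (0:ℝ)..x, (f : ℝ → ℂ) t * (g : ℝ → ℂ) (x - t)
        have h2 := intervalIntegral.integral_comp_sub_left
          (fun t => (f : ℝ → ℂ) t * (g : ℝ → ℂ) (x - t)) x (a := 0) (b := x)
        simp only [sub_sub_cancel, sub_self, sub_zero] at h2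
        exact h2
      · refine standard_translates hvc hvpos hsm hvconc hvlim hν hIcl ?_ hbot
        intro f hf a ha h hh
        exact hcongr _ _ (htr a ha f hf) hh.symm
    obtain ⟨a, ha, hall⟩ := hst
    refine ⟨a, ha, fun f => ?_⟩
    have hiff : ∀ hfi : Integrable f ν, f ∈ V ↔ ∀ᵐ x : ℝ, 0 ≤ x → x < a → f x = 0 := by
      intro hfi
      rw [hfun f hfi, hall, ← hae]
      have h2 : (hfi.toL1 f : ℝ → ℂ) =ᵐ[ν] f := hfi.coeFn_toL1
      constructor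
      · intro h
        filter_upwards [h, h2] with x hx hx2 hxa
        rw [← hx2]
        exact hx hxa
      · intro h
        filter_upwards [h, h2] with x hx hx2 hxa
        rw [hx2]
        exact hx hxa
    constructor
    · intro hf
      have h1 := hmem f hf
      exact ⟨h1, (hiff ((hint f).mp h1)).mp hf⟩
    · rintro ⟨h1, h2⟩
      exact (hiff ((hint f).mp h1)).mpr h2

/-- standard subspaces are ideals and are invariant under right translations -/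
theorem backward {w : ℝ → ℝ} (hw : ∀ x, 0 ≤ x → 0 < w x)
    (hconc : ConcaveOn ℝ (Ici 0) (fun x => Real.log (w x)))
    (hlim : Tendsto (fun x => Real.log (w x) / x) atTop atBot)
    {V : Submodule ℂ (ℝ → ℂ)}
    (hmem : ∀ f ∈ V, IntegrableOn (fun x => f x * (w x : ℂ)) (Ici 0))
    (hcl : ∀ (u : ℕ → ℝ → ℂ) (f : ℝ → ℂ), (∀ n, u n ∈ V) →
      IntegrableOn (fun x => f x * (w x : ℂ)) (Ici 0) →
      Tendsto (fun n => ∫ x in Ici (0:ℝ), ‖u n x - f x‖ * w x) atTop (nhds 0) → f ∈ V)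
    (hst : (∀ f ∈ V, ∀ᵐ x : ℝ, 0 ≤ x → f x = 0) ∨
      ∃ a : ℝ, 0 ≤ a ∧ ∀ f : ℝ → ℂ, f ∈ V ↔ IntegrableOn (fun x => f x * (w x : ℂ)) (Ici 0) ∧
        ∀ᵐ x : ℝ, 0 ≤ x → x < a → f x = 0) :
    (∀ f ∈ V, ∀ g : ℝ → ℂ, IntegrableOn (fun x => g x * (w x : ℂ)) (Ici 0) →
        (fun x => ∫ t in (0:ℝ)..x, f (x - t) * g t) ∈ V) ∧
      (∀ a : ℝ, 0 ≤ a → ∀ f ∈ V, (fun x => if a ≤ x then f (x - a) else 0) ∈ V) := by
  obtain ⟨L, v, hL, hvc, hvpos, hsm, hvconc, hvlim, hwv⟩ := normalise hw hconc hlim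
  obtain ⟨ν, hν⟩ : ∃ ν : Measure ℝ, ν = (volume.restrict (Ici (0 : ℝ))).withDensity
      (fun x => ENNReal.ofReal (v x)) := ⟨_, rfl⟩
  have hint : ∀ f : ℝ → ℂ, IntegrableOn (fun x => f x * (w x : ℂ)) (Ici 0) ↔ Integrable f ν :=
    fun f => inL_iff hL hvc hvpos hwv hν f
  -- membership from vanishing on an initial interval
  have hV : ∀ f ∈ V, ∀ h : ℝ → ℂ, Integrable h ν →
      (∀ b : ℝ, (∀ᵐ x : ℝ, 0 ≤ x → x < b → f x = 0) → ∀ᵐ x : ℝ, 0 ≤ x → x < b → h x = 0) →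
      h ∈ V := by
    intro f hf h hh hfh
    rcases hst with h0 | ⟨a, ha, hall⟩
    · refine mem_of_ae hcl V.zero_mem ((hint h).mpr hh) ?_
      have h1 : ∀ n : ℕ, ∀ᵐ x : ℝ, 0 ≤ x → x < (n:ℝ) → h x = 0 := by
        intro n
        refine hfh n ?_
        filter_upwards [h0 f hf] with x hx hx0 _
        exact hx hx0
      filter_upwards [ae_all_iff.mpr h1] with x hx hx0
      obtain ⟨n, hn⟩ := exists_nat_gt x
      rw [hx n hx0 hn]
      rfl
    · exact (hall h).mpr ⟨(hint h).mpr hh, hfh a ((hall f).mp hf).2⟩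
  constructor
  · intro f hf g hg
    refine hV f hf _ (conv_integrable hvc hvpos hsm hν ((hint f).mp (hmem f hf))
      ((hint g).mp hg)) ?_
    intro b hb
    refine Eventually.of_forall (fun x hx0 hxb => ?_)
    have h1 : ∀ᵐ t : ℝ, 0 ≤ x - t → x - t < b → f (x - t) = 0 :=
      (quasiMeasurePreserving_sub_left volume x).ae hb
    have h2 : ∫ t in (0:ℝ)..x, f (x - t) * g t = ∫ t in (0:ℝ)..x, (0:ℂ) := by
      refine intervalIntegral.integral_congr_ae ?_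
      filter_upwards [h1] with t ht htm
      rw [uIoc_of_le hx0] at htm
      rw [ht (sub_nonneg.mpr htm.2) (by linarith [htm.1]), zero_mul]
    show ∫ t in (0:ℝ)..x, f (x - t) * g t = 0
    rw [h2]
    simp
  · intro a ha f hf
    refine hV f hf _ (translate_integrable hvc hvpos hsm hν ((hint f).mp (hmem f hf)) ha) ?_
    intro b hb
    have h1 : ∀ᵐ x : ℝ, 0 ≤ x - a → x - a < b → f (x - a) = 0 :=
      (measurePreserving_sub_right volume a).quasiMeasurePreserving.ae hb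
    filter_upwards [h1] with x hx hx0 hxb
    by_cases hax : a ≤ x
    · rw [if_pos hax]
      exact hx (sub_nonneg.mpr hax) (by linarith)
    · rw [if_neg hax]

end MP_c588fa_ins
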