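import Pool.Agent.Lib_MP_c588fa_ins.Core

/-!
# Function spaces and classes

Integrability, norms, convolutions and translates for a weight `w` which is a constant times a
continuous submultiplicative weight `v` on `(0,∞)`.
-/

set_option autoImplicit false
open MeasureTheory Filter Set Complex

namespace MP_c588fa_ins

open _root_.MP_c588fa_an

lemma ae_ne_zero_tr : ∀ᵐ x : ℝ, x ≠ 0 := by
  simp [ae_iff]

lemma ae_nu_iff {v : ℝ → ℝ} (hvc : Continuous v) (hvpos : ∀ x, 0 < v x)
    {ν : Measure ℝ} (hν : ν = (volume.restrict (Ici (0 : ℝ))).withDensity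
      (fun x => ENNReal.ofReal (v x))) (P : ℝ → Prop) :
    (∀ᵐ x ∂ν, P x) ↔ ∀ᵐ x : ℝ, 0 ≤ x → P x := by
  have h1 : (∀ᵐ x : ℝ, 0 ≤ x → P x) ↔ ∀ᵐ x ∂(volume.restrict (Ici (0:ℝ))), P x := by
    rw [ae_restrict_iff' measurableSet_Ici]
    exact Iff.rfl
  rw [h1]
  exact ⟨fun h => ae_vol_of hvc hvpos hν h, fun h => ae_nu_of hν h⟩

lemma inL_iff {w v : ℝ → ℝ} {L : ℝ} (hL : 0 < L) (hvc : Continuous v) (hvpos : ∀ x, 0 < v x)
    (hwv : ∀ x, 0 < x → w x = L * v x)
    {ν : Measure ℝ} (hν : ν = (volume.restrict (Ici (0 : ℝ))).withDensity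
      (fun x => ENNReal.ofReal (v x))) (f : ℝ → ℂ) :
    IntegrableOn (fun x => f x * (w x : ℂ)) (Ici 0) ↔ Integrable f ν := by
  rw [integrable_nu_iff hvc hvpos hν]
  have h1 : (fun x => f x * (w x : ℂ)) =ᵐ[volume.restrict (Ici 0)]
      fun x => (L : ℂ) * ((v x : ℂ) * f x) := by
    filter_upwards [ae_restrict_mem measurableSet_Ici, ae_restrict_of_ae ae_ne_zero_tr] with x hx hx0
    rw [hwv x (lt_of_le_of_ne hx (Ne.symm hx0))]
    push_cast
    ring
  unfold IntegrableOn
  rw [integrable_congr h1,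
    integrable_const_mul_iff (isUnit_iff_ne_zero.mpr (by exact_mod_cast hL.ne'))]

lemma norm_eq_tr {w v : ℝ → ℝ} {L : ℝ} (hvc : Continuous v) (hvpos : ∀ x, 0 < v x)
    (hwv : ∀ x, 0 < x → w x = L * v x)
    {ν : Measure ℝ} (hν : ν = (volume.restrict (Ici (0 : ℝ))).withDensity
      (fun x => ENNReal.ofReal (v x))) (F : ℝ → ℂ) :
    ∫ x in Ici (0:ℝ), ‖F x‖ * w x = L * ∫ x, ‖F x‖ ∂ν := by
  rw [hν, integral_withDensity_eq_integral_toReal_smul (by fun_prop) (by simp),
    ← integral_const_mul]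
  refine integral_congr_ae ?_
  filter_upwards [ae_restrict_mem measurableSet_Ici, ae_restrict_of_ae ae_ne_zero_tr] with x hx hx0
  rw [hwv x (lt_of_le_of_ne hx (Ne.symm hx0)), ENNReal.toReal_ofReal (hvpos x).le, smul_eq_mul]
  ring

lemma conv_integrable {v : ℝ → ℝ} (hvc : Continuous v) (hvpos : ∀ x, 0 < v x)
    (hsm : ∀ s t : ℝ, 0 ≤ s → 0 ≤ t → v (s + t) ≤ v s * v t)
    {ν : Measure ℝ} (hν : ν = (volume.restrict (Ici (0 : ℝ))).withDensity
      (fun x => ENNReal.ofReal (v x))) {f g : ℝ → ℂ} (hf : Integrable f ν) (hg : Integrable g ν) :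
    Integrable (fun x => ∫ t in (0:ℝ)..x, f (x - t) * g t) ν := by
  rw [integrable_nu_iff hvc hvpos hν] at hf hg ⊢
  have hF : Integrable ((Ici (0:ℝ)).indicator (fun x => (v x : ℂ) * f x)) :=
    (integrable_indicator_iff measurableSet_Ici).mpr hf
  have hG : Integrable ((Ici (0:ℝ)).indicator (fun x => (v x : ℂ) * g x)) :=
    (integrable_indicator_iff measurableSet_Ici).mpr hg
  have h1 := Integrable.convolution_integrand (ContinuousLinearMap.mul ℂ ℂ) hG hF
  set S : Set (ℝ × ℝ) := {p | 0 < p.2 ∧ p.2 ≤ p.1} with hS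
  have hSm : MeasurableSet S :=
    (measurableSet_lt measurable_const measurable_snd).inter
      (measurableSet_le measurable_snd measurable_fst)
  set m : ℝ × ℝ → ℂ := S.indicator (fun p => ((v p.1 / (v (p.1 - p.2) * v p.2) : ℝ) : ℂ)) with hm
  have hmm : Measurable m := by
    refine Measurable.indicator ?_ hSm
    refine measurable_ofReal.comp ?_
    exact (hvc.measurable.comp measurable_fst).div
      ((hvc.measurable.comp (measurable_fst.sub measurable_snd)).mul
        (hvc.measurable.comp measurable_snd))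
  have hmb : ∀ p, ‖m p‖ ≤ 1 := by
    intro p
    by_cases hp : p ∈ S
    · rw [hm, indicator_of_mem hp, Complex.norm_real]
      have h2 := hsm (p.1 - p.2) p.2 (sub_nonneg.mpr hp.2) hp.1.le
      rw [sub_add_cancel] at h2
      have h3 : 0 < v (p.1 - p.2) * v p.2 := mul_pos (hvpos _) (hvpos _)
      rw [Real.norm_of_nonneg (div_nonneg (hvpos _).le h3.le), div_le_one h3]
      exact h2
    · rw [hm, indicator_of_notMem hp]
      simp
  have h2 := h1.bdd_mul hmm.aestronglyMeasurable (Eventually.of_forall hmb)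
  have h3 := h2.integral_prod_left
  refine (h3.mono_measure (Measure.restrict_le_self (s := Ici (0:ℝ)))).congr ?_
  refine (ae_restrict_mem measurableSet_Ici).mono (fun x hx => ?_)
  show (∫ t, m (x, t) * (((ContinuousLinearMap.mul ℂ ℂ)
      ((Ici (0:ℝ)).indicator (fun x => (v x : ℂ) * g x) t))
      ((Ici (0:ℝ)).indicator (fun x => (v x : ℂ) * f x) (x - t)))) =
    (v x : ℂ) * ∫ t in (0:ℝ)..x, f (x - t) * g t
  rw [intervalIntegral.integral_of_le hx, ← integral_const_mul,
    ← integral_indicator measurableSet_Ioc]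
  refine integral_congr_ae (Eventually.of_forall (fun t => ?_))
  beta_reduce
  by_cases ht : t ∈ Ioc (0:ℝ) x
  · have h4 : (x, t) ∈ S := ⟨ht.1, ht.2⟩
    have h5 : x - t ∈ Ici (0:ℝ) := sub_nonneg.mpr ht.2
    have h6 : t ∈ Ici (0:ℝ) := ht.1.le
    rw [hm, indicator_of_mem h4, indicator_of_mem h5, indicator_of_mem h6, indicator_of_mem ht,
      ContinuousLinearMap.mul_apply']
    have h7 : (v (x - t) : ℂ) ≠ 0 := by exact_mod_cast (hvpos (x - t)).ne'
    have h8 : (v t : ℂ) ≠ 0 := by exact_mod_cast (hvpos t).ne'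
    push_cast
    field_simp
  · have h4 : (x, t) ∉ S := fun h => ht ⟨h.1, h.2⟩
    rw [hm, indicator_of_notMem h4, indicator_of_notMem ht, zero_mul]

lemma translate_integrable {v : ℝ → ℝ} (hvc : Continuous v) (hvpos : ∀ x, 0 < v x)
    (hsm : ∀ s t : ℝ, 0 ≤ s → 0 ≤ t → v (s + t) ≤ v s * v t)
    {ν : Measure ℝ} (hν : ν = (volume.restrict (Ici (0 : ℝ))).withDensity
      (fun x => ENNReal.ofReal (v x))) {f : ℝ → ℂ} (hf : Integrable f ν) {a : ℝ} (ha : 0 ≤ a) :
    Integrable (fun x => if a ≤ x then f (x - a) else 0) ν := by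
  rw [integrable_nu_iff hvc hvpos hν] at hf ⊢
  have hpre : (fun x : ℝ => x - a) ⁻¹' (Ici 0) = Ici a := by
    ext x; simp
  have h2 : IntegrableOn (fun x => (v (x - a) : ℂ) * f (x - a)) (Ici a) := by
    have h1 : IntegrableOn (fun x => (v x : ℂ) * f x) (Ici 0) := hf
    have h3 := ((measurePreserving_sub_right volume a).integrableOn_comp_preimage
      (measurableEmbedding_subRight a)).mpr h1
    rw [hpre] at h3
    exact h3
  have h3 : IntegrableOn (fun x => ((v x / v (x - a) : ℝ) : ℂ) *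
      ((v (x - a) : ℂ) * f (x - a))) (Ici a) := by
    refine Integrable.bdd_mul (c := v a) h2 ?_ ?_
    · refine Continuous.aestronglyMeasurable ?_
      refine Complex.continuous_ofReal.comp ?_
      exact hvc.div (hvc.comp (continuous_id.sub continuous_const)) (fun x => (hvpos _).ne')
    · refine (ae_restrict_mem measurableSet_Ici).mono (fun x hx => ?_)
      have hx' : 0 ≤ x - a := sub_nonneg.mpr hx
      have h4 := hsm (x - a) a hx' ha
      rw [sub_add_cancel] at h4
      rw [Complex.norm_real, Real.norm_of_nonneg (div_nonneg (hvpos _).le (hvpos _).le),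
        div_le_iff₀ (hvpos _), mul_comm]
      exact h4
  have h4 : IntegrableOn (fun x => (v x : ℂ) * f (x - a)) (Ici a) := by
    refine h3.congr (Eventually.of_forall (fun x => ?_))
    have h5 : (v (x - a) : ℂ) ≠ 0 := by exact_mod_cast (hvpos (x - a)).ne'
    show ((v x / v (x - a) : ℝ) : ℂ) * ((v (x - a) : ℂ) * f (x - a)) = (v x : ℂ) * f (x - a)
    push_cast
    field_simp
  have h5 : Integrable ((Ici a).indicator (fun x => (v x : ℂ) * f (x - a)))
      (volume.restrict (Ici (0:ℝ))) :=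
    ((integrable_indicator_iff measurableSet_Ici).mpr h4).mono_measure Measure.restrict_le_self
  refine h5.congr (Eventually.of_forall (fun x => ?_))
  by_cases hx : a ≤ x
  · rw [indicator_of_mem (mem_Ici.mpr hx)]
    show _ = (v x : ℂ) * (if a ≤ x then f (x - a) else 0)
    rw [if_pos hx]
  · rw [indicator_of_notMem (fun h => hx (mem_Ici.mp h))]
    show _ = (v x : ℂ) * (if a ≤ x then f (x - a) else 0)
    rw [if_neg hx, mul_zero]

end MP_c588fa_ins
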